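import Pool.Agent.helper99.WN.Basic2

/-!
# MP_5c1f29_al, row wn:CB (the step relation of the completion is symmetric and deterministic)
-/

set_option autoImplicit false

open Classical

namespace Pool.Agent.WN

section

variable {V : Type} {k : ℕ} {R : V → Lt k → V → Prop} {W : ℤ → Lt k} {N n : ℕ}

theorem CB_inv {p p' : V × List (Lt k)} {a : Lt k} (h : Rp R W N n p a p') :
    (∃ v v', p = (v, []) ∧ p' = (v', []) ∧ R v a v') ∨
    (∃ v u, p = (v, u) ∧ p' = (v, a :: u) ∧ Al R W N n v (a :: u)) ∨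
    (∃ v b u, p = (v, b :: u) ∧ p' = (v, u) ∧ a = iv b ∧ Al R W N n v (b :: u)) ∨
    (∃ v i y l m, p = (v, fw W i m) ∧ p' = (y, bw W (i - (l : ℕ)) N) ∧ a = W (i + (m : ℕ)) ∧
      Arc R W v i y l ∧ m + l + N + 1 = n * N) ∨
    (∃ v i y l m, p = (y, bw W (i - (l : ℕ)) N) ∧ p' = (v, fw W i m) ∧ a = iv (W (i + (m : ℕ))) ∧
      Arc R W v i y l ∧ m + l + N + 1 = n * N) := by
  cases h with
  | base h => exact Or.inl ⟨_, _, rfl, rfl, h⟩
  | down h => exact Or.inr (Or.inl ⟨_, _, rfl, rfl, h⟩)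
  | up h => exact Or.inr (Or.inr (Or.inl ⟨_, _, _, rfl, rfl, rfl, h⟩))
  | cf h h2 => exact Or.inr (Or.inr (Or.inr (Or.inl ⟨_, _, _, _, _, rfl, rfl, rfl, h, h2⟩)))
  | cb h h2 => exact Or.inr (Or.inr (Or.inr (Or.inr ⟨_, _, _, _, _, rfl, rfl, rfl, h, h2⟩)))

theorem CB_big (hCA : CA_stmt) (H : Hyp R W N n) {v y : V} {i : ℤ} {l m : ℕ}
    (h : Arc R W v i y l) (hm : m + l + N + 1 = n * N) : 2 * N ≤ m := by
  have h1 := (hCA V k R W N n H).2.1 v i y l h
  have h2 : ((m + l + N + 1 : ℕ) : ℤ) = ((n * N : ℕ) : ℤ) := by rw [hm]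
  push_cast at h2
  have h3 : ((2 * N : ℕ) : ℤ) ≤ (m : ℤ) := by
    push_cast
    nlinarith
  exact_mod_cast h3

theorem CB_AB {v v' : V} {a : Lt k} (h1 : R v a v') (h2 : Al R W N n v [a]) : False := by
  obtain ⟨_, ⟨b, hb, hms⟩, _⟩ := h2
  have h3 : b = a := by
    simpa using hb.symm
  rw [h3] at hms
  exact hms v' h1

theorem CB_BC {v : V} {b : Lt k} {u : List (Lt k)} (h : Al R W N n v (iv b :: b :: u)) : False := by
  have h1 := h.1
  rw [List.isChain_cons_cons] at h1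
  exact h1.1 rfl

theorem CB_BD (hCA : CA_stmt) (H : Hyp R W N n) {v y : V} {i : ℤ} {l m : ℕ} {a : Lt k}
    (h : Arc R W v i y l) (hm : m + l + N + 1 = n * N) (h2 : Al R W N n v (a :: fw W i m)) :
    False := by
  have hb := CB_big hCA H h hm
  obtain ⟨i', y', l', h3, h4, _, h6⟩ := al_long h2 (by rw [fw_length]; omega)
  rw [fw_length] at h4 h6
  have h5 := fw_inj H.wd (by omega) h4
  have h7 := (hCA V k R W N n H).2.2.1 v i y l i' y' l' h h3 h5.2
  have h8 : l = l' := h7.2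
  omega

theorem CB_BE (H : Hyp R W N n) {v : V} {j : ℤ} {a : Lt k}
    (h2 : Al R W N n v (a :: bw W j N)) : False := by
  obtain ⟨i', y', l', h3, h4, _, h6⟩ := al_long h2 (by rw [bw_length])
  exact fw_ne_bw H.wd _ _ _ h4.symm

theorem CB_CD (H : Hyp R W N n) {i : ℤ} {m : ℕ} {b : Lt k} {u : List (Lt k)}
    (h1 : b :: u = fw W i m) (h2 : iv b = W (i + (m : ℕ))) : False := by
  cases m with
  | zero =>
    have h3 : b :: u = [] := h1
    exact List.cons_ne_nil _ _ h3
  | succ m =>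
    have h3 : b :: u = W (i + (m : ℤ)) :: fw W i m := h1
    rw [List.cons.injEq] at h3
    rw [h3.1] at h2
    apply H.wd.red (i + m)
    rw [h2]
    congr 1
    push_cast
    ring

theorem CB_CE (H : Hyp R W N n) {i : ℤ} {l m : ℕ} {b : Lt k} {u : List (Lt k)}
    (hm : m + l + N + 1 = n * N)
    (h1 : b :: u = bw W (i - (l : ℕ)) N) (h2 : iv b = iv (W (i + (m : ℕ)))) : False := by
  obtain ⟨N', hN'⟩ : ∃ N', N = N' + 1 := ⟨N - 1, by have := H.wd.pos; omega⟩
  have h3 : bw W (i - (l : ℕ)) N = iv (W (i - (l : ℕ) - 1 - (N' : ℤ))) :: bw W (i - (l : ℕ)) N' := by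
    conv_lhs => rw [hN']
    rfl
  rw [h3, List.cons.injEq] at h1
  have h4 := iv_inj h2
  rw [h1.1] at h4
  -- iv (W (i - l - N)) = W (i + m) = W (i - l - N - 1)
  have h5 : ((m + l + N + 1 : ℕ) : ℤ) = ((n * N : ℕ) : ℤ) := by rw [hm]
  push_cast at h5
  have h6 : W (i + (m : ℕ)) = W (i - (l : ℕ) - N - 1) := by
    apply H.wd.per_dvd
    refine ⟨n, ?_⟩
    have h7 : (m : ℤ) = n * N - l - N - 1 := by linarith
    rw [h7]
    ring
  rw [h6] at h4
  apply H.wd.red' (i - (l : ℕ) - N - 1)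
  rw [← h4]
  congr 2
  rw [hN']
  push_cast
  ring

end

theorem CB (hCA : CA_stmt) : CB_stmt := by
  intro V k R W N n H
  have hNpos := H.wd.pos
  constructor
  · intro p a p1 p2 h1 h2
    rcases CB_inv h1 with ⟨v, v1, rfl, rfl, hR⟩ | ⟨v, u, rfl, rfl, hA⟩ | ⟨v, b, u, rfl, rfl, rfl, hA⟩ |
      ⟨v, i, y, l, m, rfl, rfl, rfl, hA, hm⟩ | ⟨v, i, y, l, m, rfl, rfl, rfl, hA, hm⟩
    · -- base
      rcases CB_inv h2 with ⟨v', v2, e1, rfl, hR'⟩ | ⟨v', u', e1, rfl, hA'⟩ |
        ⟨v', b', u', e1, rfl, e2, hA'⟩ | ⟨v', i', y', l', m', e1, rfl, e2, hA', hm'⟩ |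
        ⟨v', i', y', l', m', e1, rfl, e2, hA', hm'⟩
      · rw [Prod.mk.injEq] at e1
        obtain ⟨rfl, _⟩ := e1
        rw [H.det _ _ _ _ hR hR']
      · rw [Prod.mk.injEq] at e1
        obtain ⟨rfl, rfl⟩ := e1
        exact (CB_AB hR hA').elim
      · rw [Prod.mk.injEq] at e1
        exact absurd e1.2.symm (List.cons_ne_nil _ _)
      · rw [Prod.mk.injEq] at e1
        have h3 := congrArg List.length e1.2
        rw [fw_length] at h3
        have h4 := CB_big hCA H hA' hm'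
        simp at h3
        omega
      · rw [Prod.mk.injEq] at e1
        have h3 := congrArg List.length e1.2
        rw [bw_length] at h3
        simp at h3
        omega
    · -- down
      rcases CB_inv h2 with ⟨v', v2, e1, rfl, hR'⟩ | ⟨v', u', e1, rfl, hA'⟩ |
        ⟨v', b', u', e1, rfl, rfl, hA'⟩ | ⟨v', i', y', l', m', e1, rfl, e2, hA', hm'⟩ |
        ⟨v', i', y', l', m', e1, rfl, e2, hA', hm'⟩
      · rw [Prod.mk.injEq] at e1
        obtain ⟨rfl, rfl⟩ := e1
        exact (CB_AB hR' hA).elim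
      · rw [Prod.mk.injEq] at e1
        obtain ⟨rfl, rfl⟩ := e1
        rfl
      · rw [Prod.mk.injEq] at e1
        obtain ⟨rfl, rfl⟩ := e1
        exact (CB_BC hA).elim
      · rw [Prod.mk.injEq] at e1
        obtain ⟨rfl, rfl⟩ := e1
        exact (CB_BD hCA H hA' hm' hA).elim
      · rw [Prod.mk.injEq] at e1
        obtain ⟨rfl, rfl⟩ := e1
        exact (CB_BE H hA).elim
    · -- up
      rcases CB_inv h2 with ⟨v', v2, e1, rfl, hR'⟩ | ⟨v', u', e1, rfl, hA'⟩ |
        ⟨v', b', u', e1, rfl, e2, hA'⟩ | ⟨v', i', y', l', m', e1, rfl, e2, hA', hm'⟩ |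
        ⟨v', i', y', l', m', e1, rfl, e2, hA', hm'⟩
      · rw [Prod.mk.injEq] at e1
        exact absurd e1.2 (List.cons_ne_nil _ _)
      · rw [Prod.mk.injEq] at e1
        obtain ⟨rfl, rfl⟩ := e1
        exact (CB_BC hA').elim
      · rw [Prod.mk.injEq] at e1
        obtain ⟨rfl, e3⟩ := e1
        rw [List.cons.injEq] at e3
        rw [e3.2]
      · rw [Prod.mk.injEq] at e1
        exact (CB_CD H e1.2 e2).elim
      · rw [Prod.mk.injEq] at e1
        exact (CB_CE H hm' e1.2 e2).elim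
    · -- cf
      have hb := CB_big hCA H hA hm
      rcases CB_inv h2 with ⟨v', v2, e1, rfl, hR'⟩ | ⟨v', u', e1, rfl, hA'⟩ |
        ⟨v', b', u', e1, rfl, e2, hA'⟩ | ⟨v', i', y', l', m', e1, rfl, e2, hA', hm'⟩ |
        ⟨v', i', y', l', m', e1, rfl, e2, hA', hm'⟩
      · rw [Prod.mk.injEq] at e1
        have h3 := congrArg List.length e1.2
        rw [fw_length] at h3
        simp at h3
        omega
      · rw [Prod.mk.injEq] at e1
        obtain ⟨rfl, rfl⟩ := e1
        exact (CB_BD hCA H hA hm hA').elim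
      · rw [Prod.mk.injEq] at e1
        exact (CB_CD H e1.2.symm e2.symm).elim
      · rw [Prod.mk.injEq] at e1
        obtain ⟨rfl, e3⟩ := e1
        have h3 := fw_inj H.wd (by omega) e3
        have h4 := (hCA V k R W N n H).2.2.1 v i y l i' y' l' hA hA' h3.2
        obtain ⟨rfl, rfl⟩ := h4
        rw [bw_dvd H.wd (i := i - (l : ℕ)) (i' := i' - (l : ℕ)) (by
          have h5 : i - (l : ℕ) - (i' - (l : ℕ)) = i - i' := by ring
          rw [h5]
          exact h3.2)]
      · rw [Prod.mk.injEq] at e1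
        exact absurd e1.2 (fw_ne_bw H.wd _ _ _)
    · -- cb
      rcases CB_inv h2 with ⟨v', v2, e1, rfl, hR'⟩ | ⟨v', u', e1, rfl, hA'⟩ |
        ⟨v', b', u', e1, rfl, e2, hA'⟩ | ⟨v', i', y', l', m', e1, rfl, e2, hA', hm'⟩ |
        ⟨v', i', y', l', m', e1, rfl, e2, hA', hm'⟩
      · rw [Prod.mk.injEq] at e1
        have h3 := congrArg List.length e1.2
        rw [bw_length] at h3
        simp at h3
        omega
      · rw [Prod.mk.injEq] at e1
        obtain ⟨rfl, rfl⟩ := e1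
        exact (CB_BE H hA').elim
      · rw [Prod.mk.injEq] at e1
        exact (CB_CE H hm e1.2.symm e2.symm).elim
      · rw [Prod.mk.injEq] at e1
        exact absurd e1.2.symm (fw_ne_bw H.wd _ _ _)
      · rw [Prod.mk.injEq] at e1
        obtain ⟨rfl, e3⟩ := e1
        have h3 := bw_inj H.wd e3
        obtain ⟨rfl, rfl⟩ := (hCA V k R W N n H).2.2.2 v i y l v' i' l' hA hA' h3
        have h5 : m = m' := by omega
        subst h5
        rw [fw_dvd H.wd (i := i) (i' := i') (by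
          have h5 : i - (l : ℕ) - (i' - (l : ℕ)) = i - i' := by ring
          rwa [h5] at h3)]
  · intro p a p' h
    cases h with
    | base h => exact Rp.base (H.sym _ _ _ h)
    | down h => exact Rp.up h
    | up h =>
      rw [iv_iv]
      exact Rp.down h
    | cf h h2 => exact Rp.cb h h2
    | cb h h2 =>
      rw [iv_iv]
      exact Rp.cf h h2

end Pool.Agent.WN
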