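import Pool.Agent.helper99.WN.SpecA

/-!
# MP_5c1f29_al, row wn:MG (faithful power series)
-/

set_option autoImplicit false

open Classical

namespace Pool.Agent.WN

section

variable {k : ℕ}

theorem MG_SL_add (x : Fin k) (f g : List (Fin k) → ℤ) : SL x (f + g) = SL x f + SL x g := by
  funext u
  cases u with
  | nil => rfl
  | cons y u =>
    show (if y = x ∧ u.head? ≠ some x then (f + g) u else 0) =
      (if y = x ∧ u.head? ≠ some x then f u else 0) + (if y = x ∧ u.head? ≠ some x then g u else 0)
    split_ifs
    · rfl
    · rfl

theorem MG_SL_neg (x : Fin k) (f : List (Fin k) → ℤ) : SL x (-f) = -SL x f := by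
  funext u
  cases u with
  | nil => rfl
  | cons y u =>
    show (if y = x ∧ u.head? ≠ some x then (-f) u else 0) =
      -(if y = x ∧ u.head? ≠ some x then f u else 0)
    split_ifs
    · rfl
    · rfl

theorem MG_SL_not (x : Fin k) (f : List (Fin k) → ℤ) (u : List (Fin k)) (h : u.head? ≠ some x) :
    SL x f u = 0 := by
  cases u with
  | nil => rfl
  | cons y u =>
    show (if y = x ∧ u.head? ≠ some x then f u else 0) = 0
    rw [if_neg]
    rintro ⟨h1, _⟩
    apply h
    rw [h1]
    rfl

theorem MG_SL_cons (x : Fin k) (f : List (Fin k) → ℤ) (u : List (Fin k)) (h : u.head? ≠ some x) :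
    SL x f (x :: u) = f u := by
  show (if x = x ∧ u.head? ≠ some x then f u else 0) = f u
  rw [if_pos ⟨rfl, h⟩]

theorem MG_SL_SL (x : Fin k) (f : List (Fin k) → ℤ) : SL x (SL x f) = 0 := by
  funext u
  cases u with
  | nil => rfl
  | cons y u =>
    show (if y = x ∧ u.head? ≠ some x then SL x f u else 0) = 0
    split_ifs with h
    · exact MG_SL_not x f u h.2
    · rfl

/-- the automorphism `f ↦ f + SL x f` -/
def MG_e (x : Fin k) : Equiv.Perm (List (Fin k) → ℤ) where
  toFun f := f + SL x f
  invFun f := f - SL x f
  left_inv f := by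
    show f + SL x f - SL x (f + SL x f) = f
    rw [MG_SL_add, MG_SL_SL]
    abel
  right_inv f := by
    show f - SL x f + SL x (f - SL x f) = f
    rw [sub_eq_add_neg f, MG_SL_add, MG_SL_neg, MG_SL_SL]
    abel

/-- the representation -/
def MG_rho (k : ℕ) : Fr k →* Equiv.Perm (List (Fin k) → ℤ) := FreeGroup.lift MG_e

/-- the unit series -/
def MG_d (k : ℕ) : List (Fin k) → ℤ := fun u => if u = [] then 1 else 0

theorem MG_d_SL (x : Fin k) : SL x (MG_d k) = SR x (MG_d k) := by
  funext u
  cases u with
  | nil =>
    show (0 : ℤ) = if ([] : List (Fin k)).getLast? = some x ∧ _ then _ else 0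
    rw [if_neg]
    rintro ⟨h, _⟩
    simp at h
  | cons y u =>
    cases u with
    | nil =>
      by_cases h : y = x
      · subst h
        simp [SL, SR, MG_d]
      · simp [SL, SR, h]
    | cons z v =>
      have h1 : SL x (MG_d k) (y :: z :: v) = 0 := by
        show (if y = x ∧ (z :: v).head? ≠ some x then MG_d k (z :: v) else 0) = 0
        split_ifs
        · simp [MG_d]
        · rfl
      have h2 : SR x (MG_d k) (y :: z :: v) = 0 := by
        unfold SR
        split_ifs
        · simp [MG_d]
        · rfl
      rw [h1, h2]

theorem MG_comm (x y : Fin k) (f : List (Fin k) → ℤ) : SL x (SR y f) = SR y (SL x f) := by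
  funext u
  cases u with
  | nil =>
    show (0 : ℤ) = if ([] : List (Fin k)).getLast? = some y ∧ _ then _ else 0
    rw [if_neg]
    rintro ⟨h, _⟩
    simp at h
  | cons z v =>
    rcases List.eq_nil_or_concat v with h | ⟨v', w, h⟩
    · subst h
      have h1 : SR y (SL x f) [z] = 0 := by
        unfold SR
        split_ifs
        · rfl
        · rfl
      have h2 : SL x (SR y f) [z] = 0 := by
        show (if z = x ∧ ([] : List (Fin k)).head? ≠ some x then SR y f [] else 0) = 0
        split_ifs
        · unfold SR
          rw [if_neg]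
          rintro ⟨h, _⟩
          simp at h
        · rfl
      rw [h1, h2]
    · rw [List.concat_eq_append] at h
      subst h
      have e1 : (z :: (v' ++ [w])).getLast? = some w := by
        rw [← List.cons_append]
        exact List.getLast?_concat
      have e2 : (z :: (v' ++ [w])).dropLast = z :: v' := by
        rw [← List.cons_append]
        exact List.dropLast_concat
      have e3 : (v' ++ [w]).getLast? = some w := List.getLast?_concat
      have e4 : (v' ++ [w]).dropLast = v' := List.dropLast_concat
      have h1 : SL x (SR y f) (z :: (v' ++ [w])) =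
          if z = x ∧ (v' ++ [w]).head? ≠ some x then
            (if some w = some y ∧ v'.getLast? ≠ some y then f v' else 0) else 0 := by
        show (if z = x ∧ (v' ++ [w]).head? ≠ some x then SR y f (v' ++ [w]) else 0) = _
        unfold SR
        rw [e3, e4]
      have h2 : SR y (SL x f) (z :: (v' ++ [w])) =
          if some w = some y ∧ (z :: v').getLast? ≠ some y then
            (if z = x ∧ v'.head? ≠ some x then f v' else 0) else 0 := by
        unfold SR
        rw [e1, e2]
        rfl
      rw [h1, h2]
      cases v' with
      | nil =>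
        by_cases hz : z = x
        · by_cases hw : w = y
          · subst hz
            subst hw
            by_cases hzw : z = w
            · simp [hzw]
            · have hwz : w ≠ z := fun h => hzw h.symm
              simp [hzw, hwz]
          · simp [hw]
        · simp [hz]
      | cons a v'' =>
        have e5 : (z :: a :: v'').getLast? = (a :: v'').getLast? := List.getLast?_cons_cons
        have e6 : (a :: v'' ++ [w]).head? = (a :: v'').head? := rfl
        rw [e5, e6]
        by_cases c1 : z = x ∧ (a :: v'').head? ≠ some x
        · by_cases c2 : some w = some y ∧ (a :: v'').getLast? ≠ some y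
          · rw [if_pos c1, if_pos c2, if_pos c2, if_pos c1]
          · rw [if_pos c1, if_neg c2, if_neg c2]
        · by_cases c2 : some w = some y ∧ (a :: v'').getLast? ≠ some y
          · rw [if_neg c1, if_pos c2, if_neg c1]
          · rw [if_neg c1, if_neg c2]

theorem MG_SR_add (x : Fin k) (f g : List (Fin k) → ℤ) : SR x (f + g) = SR x f + SR x g := by
  funext u
  show SR x (f + g) u = SR x f u + SR x g u
  unfold SR
  split_ifs
  · rfl
  · rfl

/-- all `ρ g` commute with `f ↦ f + SR y f` -/
theorem MG_right (y : Fin k) (g : Fr k) : ∀ f : List (Fin k) → ℤ,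
    MG_rho k g (f + SR y f) = MG_rho k g f + SR y (MG_rho k g f) := by
  have hof : ∀ (x : Fin k) (f : List (Fin k) → ℤ),
      MG_e x (f + SR y f) = MG_e x f + SR y (MG_e x f) := by
    intro x f
    show f + SR y f + SL x (f + SR y f) = f + SL x f + SR y (f + SL x f)
    rw [MG_SL_add, MG_SR_add, MG_comm]
    abel
  induction g using FreeGroup.induction_on with
  | C1 =>
    intro f
    rw [map_one]
    rfl
  | of x =>
    intro f
    have h1 : MG_rho k (FreeGroup.of x) = MG_e x := FreeGroup.lift_apply_of
    rw [h1]
    exact hof x f
  | inv_of x _ =>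
    intro f
    have h0 : MG_rho k (FreeGroup.of x) = MG_e x := FreeGroup.lift_apply_of
    have h1 : MG_rho k (FreeGroup.of x)⁻¹ = (MG_e x)⁻¹ := by
      rw [map_inv, h0]
    have hinv : ∀ f, MG_e x ((MG_e x)⁻¹ f) = f := fun f => (MG_e x).apply_symm_apply f
    rw [h1]
    apply (MG_e x).injective
    rw [hof, hinv, hinv]
  | mul a b ha hb =>
    intro f
    rw [map_mul, Equiv.Perm.mul_apply, Equiv.Perm.mul_apply, hb, ha]

/-- the series of a list -/
theorem MG_claim : ∀ (l : List (Fin k × Bool)) (x : Fin k) (b : Bool),
    FreeGroup.IsReduced ((x, b) :: l) → ∃ (s : List (Fin k)) (P e : ℤ),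
      s.head? ≠ some x ∧ P ≠ 0 ∧ 0 < (if b = true then 1 else -1) * e ∧
      MG_rho k (FreeGroup.mk ((x, b) :: l)) (MG_d k) s = P ∧
      MG_rho k (FreeGroup.mk ((x, b) :: l)) (MG_d k) (x :: s) = e * P ∧
      ∀ u, MG_rho k (FreeGroup.mk ((x, b) :: l)) (MG_d k) u ≠ 0 → u.Sublist (x :: s) := by
  have hstep : ∀ (l : List (Fin k × Bool)) (x : Fin k) (b : Bool) (u : List (Fin k)),
      MG_rho k (FreeGroup.mk ((x, b) :: l)) (MG_d k) u =
        MG_rho k (FreeGroup.mk l) (MG_d k) u + (if b = true then 1 else -1) *
          SL x (MG_rho k (FreeGroup.mk l) (MG_d k)) u := by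
    intro l x b u
    have h1 : MG_rho k (FreeGroup.mk ((x, b) :: l)) =
        cond b (MG_e x) (MG_e x)⁻¹ * MG_rho k (FreeGroup.mk l) := by
      unfold MG_rho
      rw [FreeGroup.lift_mk, FreeGroup.lift_mk, List.map_cons, List.prod_cons]
    rw [h1, Equiv.Perm.mul_apply]
    generalize MG_rho k (FreeGroup.mk l) (MG_d k) = f
    cases b with
    | true =>
      show f u + SL x f u = _
      rw [if_pos rfl, one_mul]
    | false =>
      show f u - SL x f u = _
      rw [if_neg (by simp)]
      ring
  intro l
  induction l with
  | nil =>
    intro x b _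
    refine ⟨[], 1, if b = true then 1 else -1, by simp, one_ne_zero, ?_, ?_, ?_, ?_⟩
    · cases b <;> simp
    · rw [hstep]
      have h1 : MG_rho k (FreeGroup.mk []) = 1 := by
        rw [← FreeGroup.one_eq_mk, map_one]
      rw [h1]
      simp [MG_d, SL]
    · rw [hstep]
      have h1 : MG_rho k (FreeGroup.mk []) = 1 := by
        rw [← FreeGroup.one_eq_mk, map_one]
      rw [h1]
      simp [MG_d, SL]
    · intro u hu
      rw [hstep] at hu
      have h1 : MG_rho k (FreeGroup.mk []) = 1 := by
        rw [← FreeGroup.one_eq_mk, map_one]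
      rw [h1, Equiv.Perm.one_apply] at hu
      cases u with
      | nil => exact List.nil_sublist _
      | cons y v =>
        by_cases hv : v = []
        · subst hv
          by_cases hy : y = x
          · subst hy
            exact List.Sublist.refl _
          · exfalso
            apply hu
            simp [MG_d, SL, hy]
        · exfalso
          apply hu
          have h2 : SL x (MG_d k) (y :: v) = 0 := by
            show (if y = x ∧ v.head? ≠ some x then MG_d k v else 0) = 0
            split_ifs
            · simp [MG_d, hv]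
            · rfl
          rw [h2]
          simp [MG_d]
  | cons a l ih =>
    intro x b hred
    obtain ⟨x', b'⟩ := a
    unfold FreeGroup.IsReduced at hred
    rw [List.isChain_cons_cons] at hred
    obtain ⟨s', P', e', hs', hP', he', h1, h2, h3⟩ := ih x' b' hred.2
    have hst : ∀ u, MG_rho k (FreeGroup.mk ((x, b) :: (x', b') :: l)) (MG_d k) u =
        MG_rho k (FreeGroup.mk ((x', b') :: l)) (MG_d k) u + (if b = true then 1 else -1) *
          SL x (MG_rho k (FreeGroup.mk ((x', b') :: l)) (MG_d k)) u := hstep _ x b
    generalize MG_rho k (FreeGroup.mk ((x, b) :: (x', b') :: l)) (MG_d k) = f at hst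
    generalize MG_rho k (FreeGroup.mk ((x', b') :: l)) (MG_d k) = f' at h1 h2 h3 hst
    have hε : (if b = true then (1 : ℤ) else -1) * (if b = true then (1 : ℤ) else -1) = 1 := by
      cases b <;> simp
    have hSLne : ∀ u, SL x f' u ≠ 0 → ∃ v, u = x :: v ∧ v.head? ≠ some x ∧ f' v ≠ 0 := by
      intro u hu
      cases u with
      | nil => exact absurd rfl hu
      | cons y v =>
        have e1 : SL x f' (y :: v) = if y = x ∧ v.head? ≠ some x then f' v else 0 := rfl
        rw [e1] at hu
        by_cases hc : y = x ∧ v.head? ≠ some x
        · rw [if_pos hc] at hu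
          exact ⟨v, by rw [hc.1], hc.2, hu⟩
        · rw [if_neg hc] at hu
          exact absurd rfl hu
    by_cases hx : x = x'
    · subst hx
      have hb : b = b' := hred.1 rfl
      subst hb
      refine ⟨s', P', e' + (if b = true then 1 else -1), hs', hP', ?_, ?_, ?_, ?_⟩
      · rw [mul_add, hε]
        linarith
      · rw [hst, MG_SL_not x f' s' hs', h1]
        ring
      · rw [hst, MG_SL_cons x f' s' hs', h1, h2]
        ring
      · intro u hu
        rw [hst] at hu
        by_cases hf : f' u = 0
        · have h4 : SL x f' u ≠ 0 := by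
            intro h5
            apply hu
            rw [hf, h5]
            ring
          obtain ⟨v, rfl, hv, hfv⟩ := hSLne u h4
          have h5 := h3 v hfv
          rcases List.sublist_cons_iff.1 h5 with h6 | ⟨r, hr, _⟩
          · exact List.Sublist.cons_cons x h6
          · exfalso
            apply hv
            rw [hr]
            rfl
        · exact h3 u hf
    · have hne : (x' :: s').head? ≠ some x := by
        intro h
        apply hx
        exact (Option.some.inj h).symm
      have he0 : e' ≠ 0 := by
        rintro rfl
        rw [mul_zero] at he'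
        exact lt_irrefl _ he'
      have hz : f' (x :: x' :: s') = 0 := by
        by_contra hcon
        have h4 := (h3 _ hcon).length_le
        simp at h4
      refine ⟨x' :: s', e' * P', if b = true then 1 else -1, hne, mul_ne_zero he0 hP', ?_, ?_, ?_, ?_⟩
      · rw [hε]
        exact one_pos
      · rw [hst, MG_SL_not x f' _ hne, h2]
        ring
      · rw [hst, MG_SL_cons x f' _ hne, hz, h2]
        ring
      · intro u hu
        rw [hst] at hu
        by_cases hf : f' u = 0
        · have h4 : SL x f' u ≠ 0 := by
            intro h5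
            apply hu
            rw [hf, h5]
            ring
          obtain ⟨v, rfl, hv, hfv⟩ := hSLne u h4
          exact List.Sublist.cons_cons x (h3 v hfv)
        · exact (h3 u hf).trans (List.sublist_cons_self x _)

end

theorem MG : MG_stmt := by
  intro k
  refine ⟨fun g => MG_rho k g (MG_d k), ?_, ?_, ?_⟩
  · intro g h hgh
    have hgh' : MG_rho k g (MG_d k) = MG_rho k h (MG_d k) := hgh
    have h1 : MG_rho k (h⁻¹ * g) (MG_d k) = MG_d k := by
      rw [map_mul, Equiv.Perm.mul_apply, hgh', map_inv]
      exact (MG_rho k h).symm_apply_apply _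
    have h2 : h⁻¹ * g = 1 := by
      by_contra hne
      have h3 : (h⁻¹ * g).toWord ≠ [] := by
        intro h4
        exact hne (FreeGroup.toWord_eq_nil_iff.1 h4)
      obtain ⟨⟨x, b⟩, l, hl⟩ := List.exists_cons_of_ne_nil h3
      have hred : FreeGroup.IsReduced ((x, b) :: l) := by
        rw [← hl]
        exact FreeGroup.isReduced_toWord
      obtain ⟨s, P, e, _, hP, he, _, h5, _⟩ := MG_claim l x b hred
      rw [← hl, FreeGroup.mk_toWord, h1] at h5
      have h6 : MG_d k (x :: s) = 0 := by simp [MG_d]
      rw [h6] at h5
      rcases mul_eq_zero.1 h5.symm with h7 | h7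
      · rw [h7, mul_zero] at he
        exact lt_irrefl _ he
      · exact hP h7
    exact (inv_mul_eq_one.1 h2).symm
  · intro g x u
    have h1 : MG_rho k (FreeGroup.of x) = MG_e x := FreeGroup.lift_apply_of
    show MG_rho k (FreeGroup.of x * g) (MG_d k) u = _
    rw [map_mul, Equiv.Perm.mul_apply, h1]
    rfl
  · intro g x u
    have h1 : MG_rho k (FreeGroup.of x) = MG_e x := FreeGroup.lift_apply_of
    show MG_rho k (g * FreeGroup.of x) (MG_d k) u = _
    rw [map_mul, Equiv.Perm.mul_apply, h1]
    have h2 : MG_e x (MG_d k) = MG_d k + SR x (MG_d k) := by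
      rw [← MG_d_SL]
      rfl
    rw [h2, MG_right]
    rfl

end Pool.Agent.WN
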